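import Mathlib
import Pool.Agent.Lib.MP_762844_al.Cof

namespace Pool.Agent.Results.MP_762844_al.PrimeExponent

open Pool.Agent.Lib.MP_762844_al

/-- Structure of an infinite non-abelian group with cofinite Zariski topology: it has prime
exponent at least five and a finite centre, its central quotient is a centreless group of the same
kind, centralizers of non-central elements are finite, every word is a law or takes infinitely
many values on every infinite subgroup, commuting words are laws, and for non-central `t` and every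
`c` only finitely many `x` are such that `t` and `x t x⁻¹` generate a nilpotent group of class at
most `c`. -/
theorem result {G : Type*} [Group G] [Infinite G] (hC : Cof G) (hna : ∃ a b : G, a * b ≠ b * a) :
    (∃ p : ℕ, p.Prime ∧ 5 ≤ p ∧ ∀ x : G, x ^ p = 1) ∧
      (Subgroup.center G : Set G).Finite ∧
      Cof (G ⧸ Subgroup.center G) ∧ Subgroup.center (G ⧸ Subgroup.center G) = ⊥ ∧
      (∀ t : G, t ∉ Subgroup.center G → {x : G | x * t = t * x}.Finite) ∧
      (∀ (n : ℕ) (w : FreeGroup (Fin n)), (∀ φ : Fin n → G, FreeGroup.lift φ w = 1) ∨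
        ∀ H : Subgroup G, (H : Set G).Infinite →
          {g : G | ∃ φ : Fin n → G, (∀ i, φ i ∈ H) ∧ FreeGroup.lift φ w = g}.Infinite) ∧
      (∀ (m n : ℕ) (u : FreeGroup (Fin m)) (v : FreeGroup (Fin n)),
        (∀ (φ : Fin m → G) (ψ : Fin n → G),
          FreeGroup.lift φ u * FreeGroup.lift ψ v = FreeGroup.lift ψ v * FreeGroup.lift φ u) →
        (∀ φ : Fin m → G, FreeGroup.lift φ u = 1) ∨ ∀ ψ : Fin n → G, FreeGroup.lift ψ v = 1) ∧
      (∀ t : G, t ∉ Subgroup.center G → ∀ c : ℕ,
        {x : G | (Subgroup.closure {t, x * t * x⁻¹}).lowerCentralSeries c = ⊥}.Finite) := by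
  obtain ⟨a, b, hab⟩ := hna
  have hb : b ∉ Subgroup.center G := fun h => hab (Subgroup.mem_center_iff.mp h a)
  refine ⟨⟨orderOf b, orderOf_prime hC hb, five_le hC hb, pow_orderOf hC hb⟩,
    center_finite hC hab, quot_cof hC ⟨a, b, hab⟩, quot_center hC ⟨a, b, hab⟩,
    fun t ht => centralizer_finite hC ht, fun n w => ?_,
    fun m n u v h => comm_law hC ⟨a, b, hab⟩ u v h, fun t ht c => nilp_finite hC ht c⟩
  by_cases hw : ∀ φ : Fin n → G, FreeGroup.lift φ w = 1
  · exact Or.inl hw
  · exact Or.inr fun H hH => law_or hC w hw H hH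

end Pool.Agent.Results.MP_762844_al.PrimeExponent
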