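import Mathlib
import Pool.Agent.Lib.MP_762844_al.Gal

/-!
# Roots of equations in relatively free groups with cofinite Zariski topology

Let `G` be a relatively free group of countably infinite rank, with the basis `x 0, x 1, ...`, in which every
solution set of a one-variable equation with constants is finite or the whole group. Let `f` be a word in
`n + 1` letters such that the equation `f (x 0, ..., x (n - 1), y) = f (x 0, ..., x n)` does not hold for all
`y`. Then every root `z` of this equation forms with `x 0, ..., x (n - 1)` a basis of the subgroup generated by
`x 0, ..., x n`: the two subgroups are equal, and all relations of `x 0, ..., x (n - 1), z` are laws. So the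
roots are the images of `x n` under a finite group of automorphisms of this subgroup, which fix
`x 0, ..., x (n - 1)`.
-/

set_option autoImplicit false

namespace Pool.Agent.Results.MP_762844_al.RootsAndBases

open Pool.Agent.Lib.MP_762844_al

theorem result {G : Type*} [Group G] (hC : Cof G) (x : ℕ → G) (hx : RelFree x)
    (hgen : Subgroup.closure (Set.range x) = ⊤) (n : ℕ) (f : FreeGroup (Fin (n + 1)))
    (hf : ∃ y : G, FreeGroup.lift (ev x n y) f ≠ FreeGroup.lift (ev x n (x n)) f) (z : G)
    (hz : FreeGroup.lift (ev x n z) f = FreeGroup.lift (ev x n (x n)) f) :
    Subgroup.closure (x '' Set.Iio n ∪ {z}) = Subgroup.closure (x '' Set.Iio (n + 1)) ∧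
      ∀ w : FreeGroup (Fin (n + 1)), FreeGroup.lift (ev x n z) w = 1 →
        ∀ φ : Fin (n + 1) → G, FreeGroup.lift φ w = 1 :=
  roots hC hx hgen n f hf z hz

end Pool.Agent.Results.MP_762844_al.RootsAndBases
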