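import Mathlib
import Pool.Agent.Lib.MP_762844_al.Trans

/-!
# The question for uncountable groups is the question for relatively free groups

The following are equivalent.

1. There is an uncountable non-abelian group with cofinite Zariski topology.
2. There is a non-abelian group `G` with cofinite Zariski topology and an infinite subset `A` such that for
   every finite subset `S` some element is transcendental over the subgroup generated by `A` and `S`: every
   equation with constants in this subgroup which holds at the element holds at all elements of `G`.
3. There is a non-abelian group with cofinite Zariski topology which is a relatively free group of countably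
   infinite rank: it is generated by a sequence `x` all of whose relations are laws of the group. Moreover, for
   every `n`, every element outside the subgroup generated by `x 0, ..., x (n - 1)` is free over
   `x 0, ..., x (n - 1)`: together they satisfy only laws.
4. For every infinite cardinal there is a non-abelian group of this cardinality with cofinite Zariski topology.
-/

set_option autoImplicit false

namespace Pool.Agent.Results.MP_762844_al.UncountableGroups

open Pool.Agent.Lib.MP_762844_al Cardinal

theorem result : List.TFAE
    [∃ (G : Type) (_ : Group G), Uncountable G ∧ Cof G ∧ ∃ a b : G, a * b ≠ b * a,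
      ∃ (G : Type) (_ : Group G), InfTrdeg G ∧ Cof G ∧ ∃ a b : G, a * b ≠ b * a,
      ∃ (G : Type) (_ : Group G) (x : ℕ → G), Cof G ∧ (∃ a b : G, a * b ≠ b * a) ∧
        RelFree x ∧ Subgroup.closure (Set.range x) = ⊤ ∧
        ∀ (n : ℕ) (z : G), z ∉ Subgroup.closure (x '' Set.Iio n) →
          ∀ w : FreeGroup (Fin (n + 1)),
            FreeGroup.lift (fun i : Fin (n + 1) => if (i : ℕ) < n then x i else z) w = 1 →
              ∀ φ : Fin (n + 1) → G, FreeGroup.lift φ w = 1,
      ∀ κ : Cardinal.{0}, ℵ₀ ≤ κ →
        ∃ (G : Type) (_ : Group G), #G = κ ∧ Cof G ∧ ∃ a b : G, a * b ≠ b * a] := by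
  tfae_have 1 → 2 := by
    rintro ⟨G, _, hu, hC, hna⟩
    exact ⟨G, inferInstance, trdeg_of_uncountable hC, hC, hna⟩
  tfae_have 2 → 3 := by
    rintro ⟨G, _, hT, hC, hna⟩
    obtain ⟨F, x, h1, h2, h3, h4⟩ := trdeg_part hC hna hT
    exact ⟨F, inferInstance, x, h1, h2, h3, h4, fun n z hz w hw φ => over_part h1 h3 h4 n z hz w hw φ⟩
  tfae_have 3 → 4 := by
    rintro ⟨G, _, x, hC, hna, hx, -, -⟩ κ hκ
    exact cardinal_part hC hna hx κ hκ
  tfae_have 4 → 1 := by
    intro h
    obtain ⟨G, i, h1, h2, h3⟩ := h continuum (le_of_lt aleph0_lt_continuum)
    refine ⟨G, i, ?_, h2, h3⟩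
    rw [← aleph0_lt_mk_iff, h1]
    exact aleph0_lt_continuum
  tfae_finish

end Pool.Agent.Results.MP_762844_al.UncountableGroups
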