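import Mathlib
import Pool.Agent.Lib.MP_762844_al.UniMain

/-!
# Uniform counterexamples give relatively free ones

Let `G` be an infinite group in which the number of solutions of a one-variable equation with constants which
does not hold identically is bounded by a number which depends only on the exponents of the equation. Then the
relatively free groups of every rank of the variety generated by `G` have the same property, with the same
bounds. So if `G` is not abelian, the relatively free groups of infinite rank are non-abelian groups with
cofinite Zariski topology, of every infinite cardinality.
-/

set_option autoImplicit false

namespace Pool.Agent.Results.MP_762844_al.UniformCounterexamples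

open Pool.Agent.Lib.MP_762844_al Cardinal

theorem result (G : Type) [Group G] [Infinite G] (b : List ℤ → ℕ) (hG : UCof G b) (I : Type) :
    UCof (RF G I) b ∧
      ((∃ x y : G, x * y ≠ y * x) → Infinite I →
        #(RF G I) = #I ∧ ∃ x y : RF G I, x * y ≠ y * x) :=
  uniform hG I

end Pool.Agent.Results.MP_762844_al.UniformCounterexamples
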